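import Pool.Agent.Helper848.Lazy.Game
import Pool.Agent.Helper848.Lazy.Lower
import Pool.Agent.Helper848.Lazy.Upper

namespace Pool.Agent.Results.MP_e22981_co.LazyCopNumberOrder

open LazyCops Filter Asymptotics

/-- The lazy cop number of the `n`-dimensional hypercube has order `2^n / n^(3/2)`. -/
theorem result :
    (fun n : ℕ => (lazyCopNumber (hypercube n) : ℝ)) =Θ[atTop]
      (fun n : ℕ => (2 : ℝ) ^ n / (n : ℝ) ^ (3 / 2 : ℝ)) := by
  obtain ⟨C, hC, hup⟩ := LazyCops.Up.exists_upper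
  obtain ⟨c, hc, hlow⟩ := LazyCops.exists_lower
  have hpow : ∀ n : ℕ, 1 ≤ n → (n : ℝ) ^ (3 / 2 : ℝ) = n * √n := by
    intro n hn
    have hn0 : (0 : ℝ) < n := by exact_mod_cast hn
    rw [Real.sqrt_eq_rpow, show (3 / 2 : ℝ) = 1 + 1 / 2 by norm_num, Real.rpow_add hn0,
      Real.rpow_one]
  constructor
  · rw [isBigO_iff]
    refine ⟨C, ?_⟩
    filter_upwards [hup, eventually_ge_atTop 1] with n hn hn1
    obtain ⟨k, hk, hwin⟩ := hn
    have hle : lazyCopNumber (hypercube n) ≤ k := Nat.sInf_le hwin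
    have hle' : (lazyCopNumber (hypercube n) : ℝ) ≤ k := by exact_mod_cast hle
    rw [Real.norm_of_nonneg (by positivity), Real.norm_of_nonneg (by positivity), hpow n hn1]
    calc (lazyCopNumber (hypercube n) : ℝ) ≤ k := hle'
      _ ≤ C * 2 ^ n / (n * √n) := hk
      _ = C * (2 ^ n / (n * √n)) := by ring
  · rw [isBigO_iff]
    refine ⟨1 / c, ?_⟩
    filter_upwards [hup, hlow, eventually_ge_atTop 1] with n hn hl hn1
    obtain ⟨k, hk, hwin⟩ := hn
    have hmem : lazyCopNumber (hypercube n) ∈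
        {k : ℕ | ∃ c : Fin k → (Fin n → Bool), ∀ r, CopsWin (hypercube n) c r} :=
      Nat.sInf_mem ⟨k, hwin⟩
    obtain ⟨c', hc'⟩ := hmem
    rw [Real.norm_of_nonneg (by positivity), Real.norm_of_nonneg (by positivity), hpow n hn1]
    by_contra hcon
    rw [not_le, one_div, ← div_eq_inv_mul, div_lt_iff₀ hc] at hcon
    have hle : (lazyCopNumber (hypercube n) : ℝ) ≤ c * 2 ^ n / (n * √n) := by
      calc (lazyCopNumber (hypercube n) : ℝ) ≤ 2 ^ n / (n * √n) * c := hcon.le
        _ = c * 2 ^ n / (n * √n) := by ring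
    obtain ⟨r, hr⟩ := hl _ hle c'
    exact hr (hc' r)

end Pool.Agent.Results.MP_e22981_co.LazyCopNumberOrder
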